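import Pool.Agent.Y810.KS.Win
import Pool.Agent.W108.TP.Pos

/-!
# Clauses with distinct variables: the final form
-/

set_option autoImplicit false

namespace Pool.Agent.Y810.KS
open Finset Filter Pool.Agent.H999R2.KSat

/-- clauses with exactly `k` distinct variables -/
abbrev Clau (n k : ℕ) : Type :=
  {c : Fin n → Option Bool // (Finset.univ.filter (fun i => c i ≠ none)).card = k}

/-- probability that a random formula is satisfiable -/
noncomputable def PS (k n m : ℕ) : ℝ :=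
  (Nat.card {F : Fin m → Clau n k // ∃ a : Fin n → Bool, ∀ j, ∃ i, (F j).1 i = some (a i)} : ℝ) /
    (Nat.card (Fin m → Clau n k) : ℝ)

/-- equivalence of the two ways of counting formulas -/
def eqv (n k m : ℕ) : (Fin m → Clau n k) ≃
    {F : Fin m → Fin n → Option Bool // ∀ j, (Finset.univ.filter (fun i => F j i ≠ none)).card = k}
    where
  toFun F := ⟨fun j => (F j).1, fun j => (F j).2⟩
  invFun F := fun j => ⟨F.1 j, F.2 j⟩
  left_inv _ := rfl
  right_inv _ := rfl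

theorem card_den (n k m : ℕ) : Nat.card (Fin m → Clau n k) =
    (univ.filter (fun F : Fin m → Fin n → Option Bool =>
      ∀ j, (univ.filter (fun i => F j i ≠ none)).card = k)).card := by
  rw [Nat.card_congr (eqv n k m), Nat.card_eq_fintype_card, Fintype.card_subtype]

open Classical in
theorem card_num (n k m : ℕ) :
    Nat.card {F : Fin m → Clau n k // ∃ a : Fin n → Bool, ∀ j, ∃ i, (F j).1 i = some (a i)} =
    (univ.filter (fun F : Fin m → Fin n → Option Bool =>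
      (∀ j, (univ.filter (fun i => F j i ≠ none)).card = k) ∧
        ∃ a : Fin n → Bool, ∀ j, ∃ i, F j i = some (a i))).card := by
  have e : {F : Fin m → Clau n k // ∃ a : Fin n → Bool, ∀ j, ∃ i, (F j).1 i = some (a i)} ≃
      {F : Fin m → Fin n → Option Bool //
        (∀ j, (univ.filter (fun i => F j i ≠ none)).card = k) ∧
        ∃ a : Fin n → Bool, ∀ j, ∃ i, F j i = some (a i)} :=
    { toFun := fun F => ⟨fun j => (F.1 j).1, fun j => (F.1 j).2, F.2⟩
      invFun := fun F => ⟨fun j => ⟨F.1 j, F.2.1 j⟩, F.2.2⟩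
      left_inv := fun F => rfl
      right_inv := fun F => rfl }
  rw [Nat.card_congr e, Nat.card_eq_fintype_card, Fintype.card_subtype]

theorem PS_eq (k n m : ℕ) : PS k n m = (dscount n k m : ℝ) / dcount n k m := by
  unfold PS
  rw [card_den, card_num]
  refine tl3_ratio _ _ _ _ _ (pow_pos (Nat.factorial_pos k) m) ?_ ?_
  · rw [← num_count n k m]
  · rw [← den_count n k m]

theorem PS_nonneg (k n m : ℕ) : 0 ≤ PS k n m := by unfold PS; positivity

theorem PS_le_one (k n m : ℕ) : PS k n m ≤ 1 := by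
  rw [PS_eq]
  apply div_le_one_of_le₀ _ (Nat.cast_nonneg _)
  exact_mod_cast dscount_le_dcount n k m

/-- more clauses, smaller probability -/
theorem PS_succ_le (k n m : ℕ) : PS k n (m + 1) ≤ PS k n m := by
  classical
  unfold PS
  set X := Clau n k
  have hden : Nat.card (Fin (m + 1) → X) = Nat.card X * Nat.card (Fin m → X) := by
    rw [Nat.card_congr (Fin.consEquiv (fun _ : Fin (m + 1) => X)).symm, Nat.card_prod]
  have hnum : Nat.card {F : Fin (m + 1) → X // ∃ a : Fin n → Bool, ∀ j, ∃ i,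
      (F j).1 i = some (a i)} ≤ Nat.card X *
      Nat.card {F : Fin m → X // ∃ a : Fin n → Bool, ∀ j, ∃ i, (F j).1 i = some (a i)} := by
    rw [← Nat.card_prod]
    refine Nat.card_le_card_of_injective
      (fun F => (F.1 0, ⟨fun j => F.1 j.succ, F.2.imp fun a ha j => ha j.succ⟩)) ?_
    intro F G hFG
    simp only [Prod.mk.injEq, Subtype.mk.injEq] at hFG
    apply Subtype.ext
    funext j
    refine Fin.cases hFG.1 (fun i => congrFun hFG.2 i) j
  rcases Nat.eq_zero_or_pos (Nat.card X) with h0 | h0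
  · rw [hden, h0]
    simp only [Nat.zero_mul, Nat.cast_zero, div_zero]
    positivity
  · rw [hden]
    have h1 : (0 : ℝ) < (Nat.card X : ℝ) := by exact_mod_cast h0
    calc _ ≤ ((Nat.card X * Nat.card {F : Fin m → X // ∃ a : Fin n → Bool, ∀ j, ∃ i,
          (F j).1 i = some (a i)} : ℕ) : ℝ) / ((Nat.card X * Nat.card (Fin m → X) : ℕ) : ℝ) :=
          div_le_div_of_nonneg_right (by exact_mod_cast hnum) (Nat.cast_nonneg _)
      _ = _ := by
          push_cast
          rw [mul_div_mul_left _ _ h1.ne']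

theorem PS_anti (k n : ℕ) {m m' : ℕ} (h : m ≤ m') : PS k n m' ≤ PS k n m :=
  antitone_nat_of_succ_le (PS_succ_le k n) h

/-- comparison with ordered clauses with possible repetitions -/
theorem tr (k : ℕ) (Λ : ℝ) : ∃ K : ℝ, 0 < K ∧ ∃ n0 : ℕ, ∀ n m : ℕ, n0 ≤ n → (m : ℝ) ≤ Λ * n →
    PS k n m ≤ K * ps n k m ∧ 1 - PS k n m ≤ K * (1 - ps n k m) := by
  obtain ⟨c, hc, n0, h⟩ := dcount_lower k Λ
  refine ⟨1 / c, by positivity, max n0 1, fun n m hn hm => ?_⟩
  have hn0 : n0 ≤ n := le_trans (le_max_left _ _) hn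
  have hn1 : 1 ≤ n := le_trans (le_max_right _ _) hn
  have hnpos : (0 : ℝ) < n := by exact_mod_cast hn1
  have hX : (0 : ℝ) < ((2 * (n : ℝ)) ^ k) ^ m := by positivity
  have h1 := h n m hn0 hm
  have h2 := dscount_le n k m
  have h3 := dcount_sub_le n k m
  have h4 : (dscount n k m : ℝ) ≤ dcount n k m := by exact_mod_cast dscount_le_dcount n k m
  have hcX : 0 < c * ((2 * (n : ℝ)) ^ k) ^ m := mul_pos hc hX
  have hD : (0 : ℝ) < dcount n k m := lt_of_lt_of_le hcX h1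
  generalize ((2 * (n : ℝ)) ^ k) ^ m = X at hX h1 h2 h3 hcX
  have hs0 : (0 : ℝ) ≤ dscount n k m := Nat.cast_nonneg _
  have hp0 : 0 ≤ ps n k m := nonneg_of_mul_nonneg_left (le_trans hs0 h2) hX
  have hqX : 0 ≤ (1 - ps n k m) * X := le_trans (by linarith) h3
  have hq0 : 0 ≤ 1 - ps n k m := nonneg_of_mul_nonneg_left hqX hX
  have e1 : (1 : ℝ) - (dscount n k m : ℝ) / dcount n k m
      = ((dcount n k m : ℝ) - dscount n k m) / dcount n k m := by
    field_simp
  rw [PS_eq, e1, one_div_mul_eq_div, one_div_mul_eq_div]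
  constructor
  · rw [div_le_div_iff₀ hD hc]
    calc (dscount n k m : ℝ) * c ≤ ps n k m * X * c := mul_le_mul_of_nonneg_right h2 hc.le
      _ = ps n k m * (c * X) := by ring
      _ ≤ ps n k m * dcount n k m := mul_le_mul_of_nonneg_left h1 hp0
  · rw [div_le_div_iff₀ hD hc]
    calc ((dcount n k m : ℝ) - dscount n k m) * c ≤ (1 - ps n k m) * X * c :=
          mul_le_mul_of_nonneg_right h3 hc.le
      _ = (1 - ps n k m) * (c * X) := by ring
      _ ≤ (1 - ps n k m) * dcount n k m := mul_le_mul_of_nonneg_left h1 hq0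

theorem pow_th_le (κ : ℕ) (hκ : 2 ≤ κ) (n : ℕ) : (n : ℝ) ^ th κ ≤ n := by
  obtain ⟨ht1, ht2, ht3⟩ := th_bounds hκ
  rcases Nat.eq_zero_or_pos n with h | h
  · subst h
    rw [Nat.cast_zero, Real.zero_rpow ht3.ne']
  · have h1 : (1 : ℝ) ≤ n := by exact_mod_cast h
    calc (n : ℝ) ^ th κ ≤ (n : ℝ) ^ (1 : ℝ) :=
          Real.rpow_le_rpow_of_exponent_le h1 ht2.le
      _ = n := Real.rpow_one _

theorem small_th (κ : ℕ) (hκ : 2 ≤ κ) (A η : ℝ) (hη : 0 < η) :
    ∀ᶠ n : ℕ in atTop, A * (n : ℝ) ^ th κ ≤ η * n := by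
  obtain ⟨ht1, ht2, ht3⟩ := th_bounds hκ
  have h1 : Tendsto (fun n : ℕ => A * (n : ℝ) ^ (-(1 - th κ))) atTop (nhds 0) := by
    have := ((tendsto_rpow_neg_atTop (show (0 : ℝ) < 1 - th κ by linarith)).comp
      (tendsto_natCast_atTop_atTop (R := ℝ))).const_mul A
    simpa using this
  filter_upwards [h1.eventually (gt_mem_nhds hη), eventually_gt_atTop 0] with n hn hn0
  have hn' : (0 : ℝ) < n := by exact_mod_cast hn0
  have e : (n : ℝ) ^ th κ = n * (n : ℝ) ^ (-(1 - th κ)) := by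
    rw [show th κ = 1 + -(1 - th κ) by ring, Real.rpow_add hn', Real.rpow_one]
    ring_nf
  rw [e]
  nlinarith

/-- dropping all but two literals of every clause -/
theorem ps_two_le (n s m : ℕ) : ps n 2 m ≤ ps n (2 + s) m := by
  rcases Nat.eq_zero_or_pos n with hn | hn
  · subst hn
    rcases Nat.eq_zero_or_pos m with hm | hm
    · subst hm
      rw [ps_zero, ps_zero]
    · have : IsEmpty (Fin m → Cl 0 2) :=
        ⟨fun F => Fin.elim0 (F ⟨0, hm⟩ 0).1⟩
      have h0 : ps 0 2 m = 0 := by unfold ps E; simp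
      rw [h0]
      exact ps_nonneg _ _ _
  · have : NeZero n := ⟨hn.ne'⟩
    let e : (Fin m → Cl n (2 + s)) ≃ (Fin m → Cl n 2) × (Fin m → Cl n s) :=
      (Equiv.piCongrRight (fun _ => (Fin.appendEquiv 2 s (α := Lit n)).symm)).trans
        (Equiv.arrowProdEquivProdArrow (Fin m) (fun _ => Cl n 2) (fun _ => Cl n s))
    unfold ps
    calc E (fun F : Fin m → Cl n 2 => ind (Sol F).Nonempty)
        = E (fun F : Fin m → Cl n 2 => E (fun _ : Fin m → Cl n s => ind (Sol F).Nonempty)) :=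
          E_congr fun F => (E_const _).symm
      _ = E (fun z : (Fin m → Cl n 2) × (Fin m → Cl n s) => ind (Sol z.1).Nonempty) :=
          (E_prod (fun (F : Fin m → Cl n 2) (_ : Fin m → Cl n s) => ind (Sol F).Nonempty)).symm
      _ = E (fun F : Fin m → Cl n (2 + s) => ind (Sol (e F).1).Nonempty) :=
          (E_equiv e (fun z => ind (Sol z.1).Nonempty)).symm
      _ ≤ _ := by
          refine E_mono fun F => ind_mono ?_
          rintro ⟨a, ha⟩
          refine ⟨a, fun j => ?_⟩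
          obtain ⟨q, hq⟩ := ha j
          exact ⟨Fin.castAdd s q, hq⟩

/-- The final statement with `k = κ + 1`. -/
theorem main0 (κ : ℕ) (hκ : 2 ≤ κ) : ∃ r : ℝ, 1 / 100 ≤ r ∧ r ≤ 2 ^ (κ + 1) * Real.log 2 ∧
    (∀ x : ℝ, x < r → Tendsto (fun n : ℕ => PS (κ + 1) n ⌊x * (n : ℝ)⌋₊) atTop (nhds 1)) ∧
    (∀ x : ℝ, r < x → Tendsto (fun n : ℕ => PS (κ + 1) n ⌊x * (n : ℝ)⌋₊) atTop (nhds 0)) ∧
    (∀ δ : ℝ, 0 < δ → ∃ A : ℝ, ∃ n0 : ℕ, ∀ n m m' : ℕ, n0 ≤ n →
      (m : ℝ) + A * (n : ℝ) ^ th κ ≤ m' → 1 - δ ≤ PS (κ + 1) n m ∨ PS (κ + 1) n m' ≤ δ) ∧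
    (∀ δ : ℝ, 0 < δ → ∃ A : ℝ, ∃ n0 : ℕ, ∀ n m : ℕ, n0 ≤ n →
      r * n + A * (n : ℝ) ^ th κ ≤ m → PS (κ + 1) n m ≤ δ) ∧
    ∃ C : ℝ, 0 < C ∧ ∃ n0 : ℕ, 0 < n0 ∧ IsLUB {x : ℝ | ∃ n m : ℕ, n0 ≤ n ∧
      1 / 2 ≤ PS (κ + 1) n m ∧ x = ((m : ℝ) - C * (n : ℝ) ^ th κ) / n} r := by
  have h := hyp κ
  set p : ℕ → ℕ → ℝ := fun n m => ps n (κ + 1) m with hp
  obtain ⟨r, C, hC, hlim, n1, hrate⟩ := limit h hκ
  obtain ⟨Λ0, hΛ0, hfb⟩ := h.first_bound (1 / 2) (by norm_num)
  have hT0 : ∀ n : ℕ, 0 ≤ (n : ℝ) ^ th κ := fun n => by positivity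
  have hMx : ∀ n : ℕ, 0 < n → (Mx p n : ℝ) ≤ Λ0 * n := fun n hn => hfb n _ hn (h.Mx_spec n hn).1
  -- upper side
  have hup : ∀ δ : ℝ, 0 < δ → ∃ A : ℝ, 0 < A ∧ ∃ n0 : ℕ, ∀ n m : ℕ, n0 ≤ n →
      (Mx p n : ℝ) + A * (n : ℝ) ^ th κ ≤ m → PS (κ + 1) n m ≤ δ := by
    intro δ hδ
    obtain ⟨K1, hK1, n2, htr1⟩ := tr (κ + 1) (Λ0 + 2)
    obtain ⟨A, hA, n3, hs⟩ := stepA h hκ (δ / K1) (by positivity)
    have hev := small_th κ hκ (A + 1) 1 one_pos
    obtain ⟨n4, hn4⟩ := eventually_atTop.1 hev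
    refine ⟨A + 1, by positivity, max (max n2 n3) (max n4 1), fun n m hn hm => ?_⟩
    have a2 : n2 ≤ n := ((le_max_left _ _).trans (le_max_left _ _)).trans hn
    have a3 : n3 ≤ n := ((le_max_right _ _).trans (le_max_left _ _)).trans hn
    have a4 : n4 ≤ n := ((le_max_left _ _).trans (le_max_right _ _)).trans hn
    have a5 : 1 ≤ n := ((le_max_right _ _).trans (le_max_right _ _)).trans hn
    have hn1' : (1 : ℝ) ≤ n := by exact_mod_cast a5
    have hn0 : (0 : ℝ) < n := by linarith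
    have b1 := hn4 n a4
    rw [one_mul] at b1
    have b2 := hMx n a5
    set z : ℝ := (Mx p n : ℝ) + (A + 1) * (n : ℝ) ^ th κ with hz
    have hz0 : 0 ≤ z := by positivity
    have b3 : ⌈z⌉₊ ≤ m := Nat.ceil_le.2 hm
    have b4 : (⌈z⌉₊ : ℝ) ≤ (Λ0 + 2) * n := by
      have := (Nat.ceil_lt_add_one hz0).le
      have h5 : z ≤ Λ0 * n + n := by rw [hz]; linarith
      have : (⌈z⌉₊ : ℝ) ≤ z + 1 := this
      linarith
    refine (PS_anti (κ + 1) n b3).trans ?_
    have b5 := (htr1 n _ a2 b4).1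
    have hT1 : (1 : ℝ) ≤ (n : ℝ) ^ th κ := Real.one_le_rpow hn1' (th_bounds hκ).2.2.le
    have b6 : p n ⌈z⌉₊ < δ / K1 := by
      by_contra hcon
      rw [not_lt] at hcon
      have h6 := hs n _ a3 hcon
      have h7 : z ≤ ⌈z⌉₊ := Nat.le_ceil z
      rw [hz] at h7
      nlinarith
    have b7 : K1 * p n ⌈z⌉₊ ≤ δ := by
      rw [lt_div_iff₀ hK1] at b6
      linarith
    exact b5.trans b7
  have hlo : ∀ δ : ℝ, 0 < δ → ∃ A : ℝ, 0 < A ∧ ∃ n0 : ℕ, ∀ n m : ℕ, n0 ≤ n →
      (m : ℝ) + A * (n : ℝ) ^ th κ ≤ Mx p n → 1 - δ ≤ PS (κ + 1) n m := by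
    intro δ hδ
    obtain ⟨K1, hK1, n2, htr1⟩ := tr (κ + 1) Λ0
    obtain ⟨A, hA, n3, hs⟩ := stepA' h hκ (δ / K1) (by positivity)
    refine ⟨A, hA, max (max n2 n3) 1, fun n m hn hm => ?_⟩
    have a2 : n2 ≤ n := ((le_max_left _ _).trans (le_max_left _ _)).trans hn
    have a3 : n3 ≤ n := ((le_max_right _ _).trans (le_max_left _ _)).trans hn
    have a5 : 1 ≤ n := (le_max_right _ _).trans hn
    have b2 := hMx n a5
    have b3 : (m : ℝ) ≤ Λ0 * n := by
      have := mul_nonneg hA.le (hT0 n)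
      linarith
    have b4 := (htr1 n m a2 b3).2
    have b5 := hs n m a3 hm
    have b6 : K1 * (1 - p n m) ≤ δ := by
      have : 1 - p n m ≤ δ / K1 := by linarith
      rw [le_div_iff₀ hK1] at this
      linarith
    have b7 : 1 - PS (κ + 1) n m ≤ K1 * (1 - p n m) := b4
    linarith
  have hone : ∀ x : ℝ, x < r →
      Tendsto (fun n : ℕ => PS (κ + 1) n ⌊x * (n : ℝ)⌋₊) atTop (nhds 1) := by
    intro x hx
    rw [Metric.tendsto_atTop']
    intro ε hε
    obtain ⟨A, hA, n2, h2⟩ := hlo (ε / 2) (by positivity)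
    set η : ℝ := (r - x) / 4 with hη
    have hη0 : 0 < η := by rw [hη]; linarith
    have ev := ((hlim.eventually (lt_mem_nhds (show r - η < r by linarith))).and
      (small_th κ hκ A η hη0)).and (((eventually_ge_atTop n2).and (eventually_gt_atTop 0)).and
      (eventually_ge_atTop (max n2 1)))
    obtain ⟨N, hN⟩ := eventually_atTop.1 ev
    refine ⟨N, fun n hn => ?_⟩
    obtain ⟨⟨c1, c2⟩, ⟨c3, c4⟩, c5⟩ := hN n hn.le
    have hn0 : (0 : ℝ) < n := by exact_mod_cast c4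
    have h5 := PS_le_one (κ + 1) n ⌊x * (n : ℝ)⌋₊
    have h6 : 1 - ε / 2 ≤ PS (κ + 1) n ⌊x * (n : ℝ)⌋₊ := by
      rcases le_or_gt x 0 with hx0 | hx0
      · have e : ⌊x * (n : ℝ)⌋₊ = 0 :=
          Nat.floor_of_nonpos (mul_nonpos_of_nonpos_of_nonneg hx0 hn0.le)
        rw [e]
        have h7 : PS (κ + 1) n 0 = 1 := by
          unfold PS
          have e1 : Nat.card (Fin 0 → Clau n (κ + 1)) = 1 := by
            rw [Nat.card_eq_fintype_card]; simp
          have e2 : Nat.card {F : Fin 0 → Clau n (κ + 1) // ∃ a : Fin n → Bool, ∀ j, ∃ i,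
              (F j).1 i = some (a i)} = 1 := by
            have : Unique {F : Fin 0 → Clau n (κ + 1) // ∃ a : Fin n → Bool, ∀ j, ∃ i,
              (F j).1 i = some (a i)} :=
              { default := ⟨fun j => j.elim0, fun _ => true, fun j => j.elim0⟩
                uniq := fun F => Subtype.ext (funext fun j => j.elim0) }
            exact Nat.card_unique
          rw [e1, e2]; norm_num
        rw [h7]; linarith
      · apply h2 n _ c3
        have h8 : (⌊x * (n : ℝ)⌋₊ : ℝ) ≤ x * n := Nat.floor_le (by positivity)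
        rw [lt_div_iff₀ hn0] at c1
        have h9 : r - x = 4 * η := by rw [hη]; ring
        nlinarith
    rw [Real.dist_eq, abs_lt]
    constructor <;> linarith
  have habove : ∀ δ : ℝ, 0 < δ → ∃ A : ℝ, 0 < A ∧ ∃ n0 : ℕ, ∀ n m : ℕ, n0 ≤ n →
      r * n + A * (n : ℝ) ^ th κ ≤ m → PS (κ + 1) n m ≤ δ := by
    intro δ hδ
    obtain ⟨A, hA, n2, h2⟩ := hup δ hδ
    refine ⟨C + A, by positivity, max n1 n2, fun n m hn hm => ?_⟩
    have a1 : n1 ≤ n := (le_max_left _ _).trans hn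
    have a2 : n2 ≤ n := (le_max_right _ _).trans hn
    refine h2 n m a2 ?_
    have h3 := hrate n a1
    have : r * n + (C + A) * (n : ℝ) ^ th κ =
      (r * n + C * (n : ℝ) ^ th κ) + A * (n : ℝ) ^ th κ := by ring
    linarith
  have hlow : 1 / 100 ≤ r := by
    have h1 : Tendsto (fun n : ℕ => (1 / 100 : ℝ) - 1 / n) atTop (nhds (1 / 100)) := by
      have := (tendsto_const_nhds (x := (1 / 100 : ℝ))).sub
        (tendsto_one_div_atTop_nhds_zero_nat (𝕜 := ℝ))
      simpa using this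
    refine le_of_tendsto_of_tendsto h1 hlim ?_
    filter_upwards [eventually_gt_atTop 0] with n hn
    have hn0 : (0 : ℝ) < n := by exact_mod_cast hn
    have : NeZero n := ⟨hn.ne'⟩
    set m : ℕ := ⌊(1 / 100 : ℝ) * n⌋₊ with hm
    have h2 : (m : ℝ) ≤ 1 / 100 * n := Nat.floor_le (by positivity)
    have h3 : (1 / 100 : ℝ) * n < m + 1 := Nat.lt_floor_add_one _
    have hmn : m ≤ n := by
      have : (m : ℝ) ≤ n := by linarith
      exact_mod_cast this
    have h4 := Pool.Agent.W108.TP.E_bad_le n m hn h2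
    have h5 : E (fun F : Fin m → Cl n 2 => ind (¬ Pool.Agent.W108.TP.BadH F)) ≤ ps n 2 m :=
      E_mono (fun F => ind_mono (Pool.Agent.W108.TP.sat_of_not_bad hmn F))
    have h6 : E (fun F : Fin m → Cl n 2 => ind (¬ Pool.Agent.W108.TP.BadH F)) =
        1 - E (fun F : Fin m → Cl n 2 => ind (Pool.Agent.W108.TP.BadH F)) := by
      rw [E_congr (fun F => ind_not (Pool.Agent.W108.TP.BadH F)), E_sub, E_const]
    have h7 : 1 / 2 ≤ p n m := by
      have h8 := ps_two_le n (κ - 1) m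
      rw [show 2 + (κ - 1) = κ + 1 by omega] at h8
      show 1 / 2 ≤ ps n (κ + 1) m
      linarith
    have h9 := (h.Mx_spec n hn).2 m h7
    have h10 : (m : ℝ) ≤ Mx p n := by exact_mod_cast h9
    rw [le_div_iff₀ hn0]
    have : ((1 : ℝ) / 100 - 1 / n) * n = 1 / 100 * n - 1 := by field_simp
    rw [this]
    linarith
  have hhigh : r ≤ 2 ^ (κ + 1) * Real.log 2 := by
    have h1 : Tendsto (fun n : ℕ => 2 ^ (κ + 1) * Real.log 2 +
        2 ^ (κ + 1) * Real.log 2 * (1 / (n : ℝ))) atTop (nhds (2 ^ (κ + 1) * Real.log 2)) := by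
      have := (tendsto_const_nhds (x := 2 ^ (κ + 1) * Real.log 2)).add
        ((tendsto_one_div_atTop_nhds_zero_nat (𝕜 := ℝ)).const_mul (2 ^ (κ + 1) * Real.log 2))
      simpa using this
    refine le_of_tendsto_of_tendsto hlim h1 ?_
    filter_upwards [eventually_gt_atTop 0] with n hn
    have hn0 : (0 : ℝ) < n := by exact_mod_cast hn
    have h2 := (h.Mx_spec n hn).1
    set m : ℕ := Mx p n with hm
    have h3 : (1 / 2 : ℝ) ≤ 2 ^ n * (1 - 1 / 2 ^ (κ + 1)) ^ m :=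
      h2.trans (first_moment n (κ + 1) m hn)
    have h4 : (1 - 1 / 2 ^ (κ + 1) : ℝ) ≤ Real.exp (-(1 / 2 ^ (κ + 1))) := by
      have := Real.add_one_le_exp (-(1 / 2 ^ (κ + 1)) : ℝ)
      linarith
    have h40 : (0 : ℝ) ≤ 1 - 1 / 2 ^ (κ + 1) := by
      have : (1 : ℝ) / 2 ^ (κ + 1) ≤ 1 := by
        rw [div_le_one (by positivity)]
        exact one_le_pow₀ (by norm_num)
      linarith
    have h5 : (1 / 2 : ℝ) ≤ 2 ^ n * Real.exp (m * -(1 / 2 ^ (κ + 1))) := by
      rw [Real.exp_nat_mul]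
      exact h3.trans (mul_le_mul_of_nonneg_left (pow_le_pow_left₀ h40 h4 m) (by positivity))
    have h6 := Real.log_le_log (by norm_num) h5
    rw [Real.log_mul (by positivity) (Real.exp_pos _).ne', Real.log_exp, Real.log_pow,
      one_div, Real.log_inv] at h6
    have h7 : (m : ℝ) * (1 / 2 ^ (κ + 1)) ≤ (n + 1) * Real.log 2 := by
      rw [one_div] at h6 ⊢
      linarith
    have h8 : (m : ℝ) ≤ (n + 1) * Real.log 2 * 2 ^ (κ + 1) := by
      rwa [mul_one_div, div_le_iff₀ (by positivity)] at h7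
    rw [div_le_iff₀ hn0]
    calc (m : ℝ) ≤ (n + 1) * Real.log 2 * 2 ^ (κ + 1) := h8
      _ = (2 ^ (κ + 1) * Real.log 2 + 2 ^ (κ + 1) * Real.log 2 * (1 / (n : ℝ))) * n := by
          field_simp
  refine ⟨r, hlow, hhigh, hone, fun x hx => ?_, fun δ hδ => ?_, fun δ hδ => ?_, ?_⟩
  · rw [Metric.tendsto_atTop']
    intro ε hε
    obtain ⟨A, hA, n2, h2⟩ := hup (ε / 2) (by positivity)
    set η : ℝ := (x - r) / 4 with hη
    have hη0 : 0 < η := by rw [hη]; linarith
    have ev := ((hlim.eventually (gt_mem_nhds (show r < r + η by linarith))).and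
      (small_th κ hκ A η hη0)).and (((eventually_ge_atTop n2).and (eventually_gt_atTop 0)).and
      (tendsto_natCast_atTop_atTop.eventually (eventually_gt_atTop (1 / η))))
    obtain ⟨N, hN⟩ := eventually_atTop.1 ev
    refine ⟨N, fun n hn => ?_⟩
    obtain ⟨⟨c1, c2⟩, ⟨c3, c4⟩, c5⟩ := hN n hn.le
    have hn0 : (0 : ℝ) < n := by exact_mod_cast c4
    have h5 := PS_nonneg (κ + 1) n ⌊x * (n : ℝ)⌋₊
    have h6 : PS (κ + 1) n ⌊x * (n : ℝ)⌋₊ ≤ ε / 2 := by
      apply h2 n _ c3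
      have h8 : x * (n : ℝ) < ⌊x * (n : ℝ)⌋₊ + 1 := Nat.lt_floor_add_one _
      rw [div_lt_iff₀ hn0] at c1
      rw [div_lt_iff₀ hη0] at c5
      have h9 : x - r = 4 * η := by rw [hη]; ring
      nlinarith
    rw [Real.dist_eq, abs_lt]
    constructor <;> linarith
  · obtain ⟨A1, hA1, n2, h2⟩ := hup δ hδ
    obtain ⟨A2, hA2, n3, h3⟩ := hlo δ hδ
    refine ⟨A1 + A2, max n2 n3, fun n m m' hn hm => ?_⟩
    have a2 : n2 ≤ n := (le_max_left _ _).trans hn
    have a3 : n3 ≤ n := (le_max_right _ _).trans hn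
    rcases le_or_gt ((m : ℝ) + A2 * (n : ℝ) ^ th κ) (Mx p n) with hc | hc
    · exact Or.inl (h3 n m a3 hc)
    · refine Or.inr (h2 n m' a2 ?_)
      have : (m : ℝ) + (A1 + A2) * (n : ℝ) ^ th κ =
        (m : ℝ) + A2 * (n : ℝ) ^ th κ + A1 * (n : ℝ) ^ th κ := by ring
      linarith
  · obtain ⟨A, hA, n2, h2⟩ := habove δ hδ
    exact ⟨A, n2, h2⟩
  · obtain ⟨A, hA, n2, h2⟩ := habove (1 / 4) (by norm_num)
    refine ⟨A, hA, max n2 1, by positivity, ?_, ?_⟩
    · rintro x ⟨n, m, hn, hm, rfl⟩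
      have a2 : n2 ≤ n := (le_max_left _ _).trans hn
      have a5 : 1 ≤ n := (le_max_right _ _).trans hn
      have hn0 : (0 : ℝ) < n := by exact_mod_cast a5
      rw [div_le_iff₀ hn0]
      by_contra hcon
      rw [not_le] at hcon
      have := h2 n m a2 (by linarith)
      linarith
    · intro b hb
      by_contra hcon
      rw [not_le] at hcon
      set ε : ℝ := (r - b) / 4 with hε
      have hε0 : 0 < ε := by rw [hε]; linarith
      have e1 := (hone (r - ε) (by linarith)).eventually_const_lt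
        (show (1 / 2 : ℝ) < 1 by norm_num)
      have e3 := small_th κ hκ A ε hε0
      have e4 := tendsto_natCast_atTop_atTop.eventually (eventually_gt_atTop (1 / ε))
      obtain ⟨n, ⟨⟨h1, h2⟩, h3⟩, h4⟩ :=
        (((e1.and e3).and e4).and (eventually_ge_atTop (max n2 1))).exists
      have a5 : 1 ≤ n := (le_max_right _ _).trans h4
      have hn0 : (0 : ℝ) < n := by exact_mod_cast a5
      have h5 := hb ⟨n, ⌊(r - ε) * (n : ℝ)⌋₊, h4, h1.le, rfl⟩
      have h6 : (r - ε) * (n : ℝ) < ⌊(r - ε) * (n : ℝ)⌋₊ + 1 := Nat.lt_floor_add_one _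
      have h7 : 1 < ε * n := by
        rw [div_lt_iff₀ hε0] at h3
        linarith
      rw [div_le_iff₀ hn0] at h5
      have h9 : r - b = 4 * ε := by rw [hε]; ring
      have h10 : b * n = r * n - 4 * ε * n := by
        have : b = r - 4 * ε := by linarith
        rw [this]; ring
      nlinarith

end Pool.Agent.Y810.KS
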