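import Pool.Agent.H999R2.KSat.CV5
import Pool.Agent.H999R2.KSat.TL3
import Pool.Agent.H999R2.KSat.SA
import Pool.Agent.H999R2.KSat.SM

/-!
# Width of the satisfiability window, abstract part

Sharper window than in `H999R2.KSat.CV2`-`CV5`: exponent `(κ+1)/(2κ)` where `k = κ + 1`.
-/

set_option autoImplicit false

namespace Pool.Agent.Y810.KS
open Finset Filter Pool.Agent.H999R2.KSat

/-- the exponent `k / (2 (k - 1))`, `k = κ + 1` -/
noncomputable def th (κ : ℕ) : ℝ := ((κ : ℝ) + 1) / (2 * κ)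

theorem hyp (κ : ℕ) : Hyp κ (fun n m => ps n (κ + 1) m) where
  h0 := fun n => ps_zero n _
  hnn := fun n m => ps_nonneg n _ m
  hanti := fun n m => ps_succ_le n _ m
  hfm := by
    refine ⟨1 - 1 / 2 ^ (κ + 1), ?_, ?_, fun n m hn => first_moment n (κ + 1) m hn⟩
    · have : (1 : ℝ) / 2 ^ (κ + 1) ≤ 1 := by
        rw [div_le_one (by positivity)]
        exact one_le_pow₀ (by norm_num)
      linarith
    · have : (0 : ℝ) < 1 / 2 ^ (κ + 1) := by positivity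
      linarith
  hsharp := fun Λ => sharp' κ Λ
  hone := fun n m hn => super_one n (κ + 1) m hn (Nat.succ_pos κ)
  htwo := fun N1 N2 m m1 m2 d h1 h2 hd hdm hm1 hm2 =>
    super_two N1 N2 (κ + 1) m m1 m2 d h1 h2 (Nat.succ_pos κ) hd hdm hm1 hm2

variable {κ : ℕ} {p : ℕ → ℕ → ℝ}

theorem th_bounds (hκ : 2 ≤ κ) : 1 / 2 ≤ th κ ∧ th κ < 1 ∧ 0 < th κ := by
  have hκR : (2 : ℝ) ≤ κ := by exact_mod_cast hκ
  have h0 : (0 : ℝ) < 2 * κ := by linarith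
  unfold th
  refine ⟨?_, ?_, by positivity⟩
  · rw [div_le_div_iff₀ (by norm_num) h0]; linarith
  · rw [div_lt_one h0]; linarith

/-- the window inequality with window `O(n ^ θ)` and error as small as we like -/
theorem window (h : Hyp κ p) (hκ : 2 ≤ κ) (Λ δ : ℝ) (hδ : 0 < δ) :
    ∃ A : ℝ, 0 < A ∧ ∃ n0 : ℕ, ∀ n : ℕ, n0 ≤ n → ∃ W : ℕ, (W : ℝ) ≤ A * (n : ℝ) ^ th κ ∧
      ∀ m : ℕ, (m : ℝ) + W ≤ Λ * n → (1 - p n m) * p n (m + W) ^ 2 ≤ δ := by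
  obtain ⟨C, hC, hsh⟩ := h.hsharp Λ
  have hκR : (2 : ℝ) ≤ κ := by exact_mod_cast hκ
  set B : ℝ := C / δ + 1 with hB
  have hB1 : 1 ≤ B := by
    have : 0 < C / δ := by positivity
    linarith
  have hBC : C / B ^ (2 * κ) ≤ δ := by
    have h1 : B ≤ B ^ (2 * κ) := le_self_pow₀ hB1 (by omega)
    have h2 : C / δ ≤ B ^ (2 * κ) := by linarith
    rw [div_le_iff₀ hδ] at h2
    rw [div_le_iff₀ (by positivity)]
    linarith
  refine ⟨(B + 1) ^ (κ + 1), by positivity, ⌈(B + 1) ^ 2⌉₊ + 1, fun n hn => ?_⟩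
  have hn1 : 1 ≤ n := by omega
  have hn1' : (1 : ℝ) ≤ n := by exact_mod_cast hn1
  have hn0 : (0 : ℝ) < n := by linarith
  have hnB : (B + 1) ^ 2 ≤ n := by
    have h1 : (B + 1) ^ 2 ≤ (⌈(B + 1) ^ 2⌉₊ : ℝ) := Nat.le_ceil _
    have h2 : ((⌈(B + 1) ^ 2⌉₊ + 1 : ℕ) : ℝ) ≤ n := by exact_mod_cast hn
    push_cast at h2
    linarith
  set e : ℝ := 1 / (2 * (κ : ℝ)) with he
  have he0 : 0 < e := by positivity
  have he1 : e ≤ 1 / 2 := by
    rw [he]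
    exact one_div_le_one_div_of_le (by norm_num) (by linarith)
  have hne : (1 : ℝ) ≤ (n : ℝ) ^ e := Real.one_le_rpow hn1' he0.le
  set T : ℕ := ⌈B * (n : ℝ) ^ e⌉₊ with hT
  have hT1 : B * (n : ℝ) ^ e ≤ T := Nat.le_ceil _
  have hT2 : (T : ℝ) ≤ (B + 1) * (n : ℝ) ^ e := by
    have := (Nat.ceil_lt_add_one (show 0 ≤ B * (n : ℝ) ^ e by positivity)).le
    have h3 : (T : ℝ) ≤ B * (n : ℝ) ^ e + 1 := this
    linarith
  have hTone : 1 ≤ T := by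
    have : (1 : ℝ) ≤ T := le_trans (by nlinarith) hT1
    exact_mod_cast this
  have hTn : T ≤ n := by
    have h1 : (n : ℝ) ^ e ≤ (n : ℝ) ^ (1 / 2 : ℝ) := Real.rpow_le_rpow_of_exponent_le hn1' he1
    have h2 : (B + 1) ≤ (n : ℝ) ^ (1 / 2 : ℝ) := by
      rw [← Real.sqrt_eq_rpow]
      exact Real.le_sqrt_of_sq_le hnB
    have h3 : (n : ℝ) ^ (1 / 2 : ℝ) * (n : ℝ) ^ (1 / 2 : ℝ) = n := by
      rw [← Real.rpow_add hn0]; norm_num
    have h4 : (T : ℝ) ≤ n := by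
      calc (T : ℝ) ≤ (B + 1) * (n : ℝ) ^ e := hT2
        _ ≤ (n : ℝ) ^ (1 / 2 : ℝ) * (n : ℝ) ^ (1 / 2 : ℝ) :=
            mul_le_mul h2 h1 (by positivity) (by positivity)
        _ = n := h3
    exact_mod_cast h4
  refine ⟨T ^ (κ + 1), ?_, fun m hm => ?_⟩
  · push_cast
    calc (T : ℝ) ^ (κ + 1) ≤ ((B + 1) * (n : ℝ) ^ e) ^ (κ + 1) :=
          pow_le_pow_left₀ (Nat.cast_nonneg _) hT2 _
      _ = (B + 1) ^ (κ + 1) * (n : ℝ) ^ th κ := by
          rw [mul_pow, ← Real.rpow_natCast ((n : ℝ) ^ e), ← Real.rpow_mul hn0.le]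
          congr 2
          rw [he, th]
          push_cast
          field_simp
  · push_cast at hm
    have h1 := hsh n m T hTone hTn hm
    refine h1.trans (le_trans ?_ hBC)
    have h2 : B ^ (2 * κ) * n ≤ (T : ℝ) ^ (2 * κ) := by
      calc B ^ (2 * κ) * n = (B * (n : ℝ) ^ e) ^ (2 * κ) := by
            rw [mul_pow, ← Real.rpow_natCast ((n : ℝ) ^ e), ← Real.rpow_mul hn0.le]
            congr 1
            rw [he]
            push_cast
            rw [one_div, inv_mul_cancel₀ (by positivity), Real.rpow_one]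
        _ ≤ _ := pow_le_pow_left₀ (by positivity) hT1 _
    rw [div_le_div_iff₀ (by positivity) (by positivity)]
    calc C * n * B ^ (2 * κ) = C * (B ^ (2 * κ) * n) := by ring
      _ ≤ C * (T : ℝ) ^ (2 * κ) := mul_le_mul_of_nonneg_left h2 hC.le

/-- upper side of the window -/
theorem stepA (h : Hyp κ p) (hκ : 2 ≤ κ) (δ : ℝ) (hδ : 0 < δ) :
    ∃ A : ℝ, 0 < A ∧ ∃ n0 : ℕ, ∀ n m : ℕ, n0 ≤ n → δ ≤ p n m →
      (m : ℝ) ≤ Mx p n + A * (n : ℝ) ^ th κ := by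
  obtain ⟨Λ, hΛ, hΛm⟩ := h.first_bound δ hδ
  obtain ⟨A, hA, n0, hw⟩ := window h hκ Λ (δ ^ 2 / 4) (by positivity)
  refine ⟨A, hA, n0 + 1, fun n m hn hm => ?_⟩
  have hn1 : 0 < n := by omega
  obtain ⟨W, hW, hs⟩ := hw n (by omega)
  have hMx : (0 : ℝ) ≤ Mx p n := Nat.cast_nonneg _
  rcases Nat.lt_or_ge m W with hc | hc
  · have : (m : ℝ) ≤ (W : ℝ) := by exact_mod_cast hc.le
    linarith
  · obtain ⟨m', hm'⟩ := Nat.exists_eq_add_of_le hc
    rw [add_comm] at hm'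
    have h1 : (m' : ℝ) + W ≤ Λ * n := by
      have := hΛm n m hn1 hm
      rw [hm'] at this
      push_cast at this
      exact this
    have h2 := hs m' h1
    rw [← hm'] at h2
    have h5 : δ ^ 2 ≤ p n m ^ 2 := pow_le_pow_left₀ hδ.le hm 2
    have hp1 := h.le_one n m'
    have h6 : (1 - p n m') * δ ^ 2 ≤ (1 - p n m') * p n m ^ 2 :=
      mul_le_mul_of_nonneg_left h5 (by linarith)
    have h7 : 1 / 2 ≤ p n m' := by
      by_contra hcon
      push Not at hcon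
      have h8 : 0 < δ ^ 2 := by positivity
      nlinarith
    have h9 := (h.Mx_spec n hn1).2 m' h7
    have h10 : (m' : ℝ) ≤ Mx p n := by exact_mod_cast h9
    have h11 : (m : ℝ) = m' + (W : ℝ) := by rw [hm']; push_cast; rfl
    rw [h11]
    linarith

/-- lower side of the window -/
theorem stepA' (h : Hyp κ p) (hκ : 2 ≤ κ) (ε : ℝ) (hε : 0 < ε) :
    ∃ A : ℝ, 0 < A ∧ ∃ n0 : ℕ, ∀ n m : ℕ, n0 ≤ n →
      (m : ℝ) + A * (n : ℝ) ^ th κ ≤ Mx p n → 1 - ε ≤ p n m := by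
  obtain ⟨Λ, hΛ, hΛm⟩ := h.first_bound (1 / 2) (by norm_num)
  obtain ⟨A, hA, n0, hw⟩ := window h hκ Λ (ε / 4) (by positivity)
  refine ⟨A, hA, n0 + 1, fun n m hn hm => ?_⟩
  have hn1 : 0 < n := by omega
  obtain ⟨W, hW, hs⟩ := hw n (by omega)
  obtain ⟨hM1, hM2⟩ := h.Mx_spec n hn1
  have hle : m + W ≤ Mx p n := by
    have : (m : ℝ) + (W : ℝ) ≤ Mx p n := by linarith
    exact_mod_cast this
  have h1 : 1 / 2 ≤ p n (m + W) := hM1.trans (h.anti n hle)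
  have h2 : (m : ℝ) + (W : ℝ) ≤ Λ * n := by
    have := hΛm n _ hn1 h1
    push_cast at this
    exact this
  have h3 := hs m h2
  have hp1 := h.le_one n m
  have h7 : (1 - p n m) * (1 / 2 : ℝ) ^ 2 ≤ (1 - p n m) * p n (m + W) ^ 2 :=
    mul_le_mul_of_nonneg_left (pow_le_pow_left₀ (by norm_num) h1 2) (by linarith)
  nlinarith

/-- Step B : two blocks -/
theorem stepB (h : Hyp κ p) (hκ : 2 ≤ κ) :
    ∃ C : ℝ, 0 < C ∧ ∃ n0 : ℕ, ∀ N1 N2 : ℕ, n0 ≤ N1 → n0 ≤ N2 →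
      N1 + N2 ≤ 4 * N1 → N1 + N2 ≤ 4 * N2 →
      min ((Mx p N1 : ℝ) / N1) ((Mx p N2 : ℝ) / N2) -
        C * ((N1 + N2 : ℕ) : ℝ) ^ (-(1 - th κ)) ≤
        (Mx p (N1 + N2) : ℝ) / ((N1 + N2 : ℕ) : ℝ) := by
  obtain ⟨L0, hL0, hL⟩ := h.first_bound (1 / 2) (by norm_num)
  obtain ⟨A, hA, n1, hn1⟩ := stepA h hκ (1 / 8) (by norm_num)
  have hspec : ∀ n, 0 < n → 1 / 2 ≤ p n (Mx p n) ∧ ∀ m, 1 / 2 ≤ p n m → m ≤ Mx p n :=
    fun n hn => h.Mx_spec n hn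
  obtain ⟨ht1, ht2, ht3⟩ := th_bounds hκ
  set L : ℝ := max L0 1 with hLdef
  have hL1 : 1 ≤ L := le_max_right _ _
  refine ⟨8 * Real.sqrt L + A + 1, by positivity, max n1 1, ?_⟩
  intro N1 N2 h1 h2 h3 h4
  have hN1 : 0 < N1 := lt_of_lt_of_le Nat.zero_lt_one (le_trans (le_max_right _ _) h1)
  have hN2 : 0 < N2 := lt_of_lt_of_le Nat.zero_lt_one (le_trans (le_max_right _ _) h2)
  have hN1' : (0 : ℝ) < N1 := by exact_mod_cast hN1
  have hN2' : (0 : ℝ) < N2 := by exact_mod_cast hN2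
  set x : ℝ := ((N1 + N2 : ℕ) : ℝ) with hx
  have hxs : x = (N1 : ℝ) + N2 := by rw [hx]; push_cast; ring
  have hx1 : 1 ≤ x := by
    have : (1 : ℝ) ≤ N1 := by exact_mod_cast hN1
    linarith
  have hx0 : 0 < x := by linarith
  have h3' : x ≤ 4 * N1 := by rw [hx]; exact_mod_cast h3
  have h4' : x ≤ 4 * N2 := by rw [hx]; exact_mod_cast h4
  set c : ℝ := 1 - th κ with hc
  have hc0 : 0 < c := by linarith
  have hc2 : c ≤ 1 / 2 := by linarith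
  have e1 : x ^ th κ = x * x ^ (-c) := by
    rw [show th κ = 1 + -c by rw [hc]; ring, Real.rpow_add hx0, Real.rpow_one]
  have e2 : 1 ≤ x * x ^ (-c) := by
    rw [← e1]; exact Real.one_le_rpow hx1 ht3.le
  have e3 : Real.sqrt x ≤ x * x ^ (-c) := by
    rw [← e1, Real.sqrt_eq_rpow]
    exact Real.rpow_le_rpow_of_exponent_le hx1 ht1
  set y : ℝ := x * x ^ (-c) with hy
  set ρ : ℝ := min ((Mx p N1 : ℝ) / N1) ((Mx p N2 : ℝ) / N2) with hρ
  have hρ1 : ρ * N1 ≤ Mx p N1 := by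
    have : ρ ≤ (Mx p N1 : ℝ) / N1 := min_le_left _ _
    rwa [le_div_iff₀ hN1'] at this
  have hρ2 : ρ * N2 ≤ Mx p N2 := by
    have : ρ ≤ (Mx p N2 : ℝ) / N2 := min_le_right _ _
    rwa [le_div_iff₀ hN2'] at this
  have hρ0 : 0 ≤ ρ := le_min (by positivity) (by positivity)
  have hρL : ρ ≤ L := by
    have a1 := hL N1 _ hN1 (hspec N1 hN1).1
    have a2 : (Mx p N1 : ℝ) / N1 ≤ L0 := by rw [div_le_iff₀ hN1']; exact a1
    exact (min_le_left _ _).trans (a2.trans (le_max_left _ _))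
  set d : ℝ := 2 * Real.sqrt (L * x) with hd
  have hd0 : 0 ≤ d := by positivity
  have hdd : d ^ 2 = 4 * (L * x) := by
    rw [hd, mul_pow, Real.sq_sqrt (by positivity)]; ring
  have hdy : 4 * d ≤ 8 * Real.sqrt L * y := by
    rw [hd, Real.sqrt_mul (by linarith)]
    have : Real.sqrt L * Real.sqrt x ≤ Real.sqrt L * y :=
      mul_le_mul_of_nonneg_left e3 (Real.sqrt_nonneg _)
    linarith
  have hy0 : 0 < y := by linarith
  -- it suffices to multiply by x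
  suffices hs : ρ * x - (8 * Real.sqrt L + A + 1) * y ≤ Mx p (N1 + N2) by
    rw [le_div_iff₀ hx0]
    have : (ρ - (8 * Real.sqrt L + A + 1) * x ^ (-c)) * x =
        ρ * x - (8 * Real.sqrt L + A + 1) * y := by rw [hy]; ring
    rw [this]; exact hs
  have hAy : 0 < A * y := mul_pos hA hy0
  by_cases hcase : ρ * x < 4 * d
  · have hM0 : (0 : ℝ) ≤ Mx p (N1 + N2) := Nat.cast_nonneg _
    nlinarith
  · push Not at hcase
    set m : ℕ := ⌊ρ * x - 4 * d⌋₊ with hm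
    have hm1 : (m : ℝ) ≤ ρ * x - 4 * d := Nat.floor_le (by linarith)
    have hm2 : ρ * x - 4 * d < m + 1 := Nat.lt_floor_add_one _
    have hmm : 4 * (m : ℝ) ≤ d ^ 2 := by
      rw [hdd]
      have : ρ * x ≤ L * x := mul_le_mul_of_nonneg_right hρL hx0.le
      linarith
    have key : ∀ t : ℝ, 0 < t → x ≤ 4 * t → m * t / x + d ≤ ρ * t := by
      intro t ht hxt
      have b1 : (m : ℝ) * t / x ≤ (ρ * x - 4 * d) * t / x := by
        apply div_le_div_of_nonneg_right _ hx0.le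
        exact mul_le_mul_of_nonneg_right hm1 ht.le
      have b2 : (ρ * x - 4 * d) * t / x = ρ * t - d * (4 * t / x) := by
        field_simp
      have b3 : 1 ≤ 4 * t / x := by rwa [le_div_iff₀ hx0, one_mul]
      have b4 : d * 1 ≤ d * (4 * t / x) := mul_le_mul_of_nonneg_left b3 hd0
      linarith
    have k1 := h.htwo N1 N2 m (Mx p N1) (Mx p N2) d hN1 hN2 hd0 hmm
      (by rw [← hxs]; exact (key N1 hN1' h3').trans hρ1)
      (by rw [← hxs]; exact (key N2 hN2' h4').trans hρ2)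
    have k2 := (hspec N1 hN1).1
    have k3 := (hspec N2 hN2).1
    have k4 : (1 : ℝ) / 8 ≤ p (N1 + N2) m := by
      nlinarith [mul_le_mul k2 k3 (by norm_num) (by linarith : (0 : ℝ) ≤ p N1 (Mx p N1))]
    have k5 := hn1 (N1 + N2) m ((le_max_left _ _).trans (h1.trans (Nat.le_add_right _ _))) k4
    rw [← hx, e1] at k5
    nlinarith [e2]

/-- Step C: one more variable -/
theorem stepC (h : Hyp κ p) (hκ : 2 ≤ κ) :
    ∃ C : ℝ, 0 < C ∧ ∃ n0 : ℕ, ∀ N : ℕ, n0 ≤ N →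
      (Mx p N : ℝ) / N - C * (N : ℝ) ^ (-(1 - th κ)) ≤
        (Mx p (N + 1) : ℝ) / ((N + 1 : ℕ) : ℝ) := by
  obtain ⟨Λ, hΛ, hfb⟩ := h.first_bound (1 / 2) (by norm_num)
  have hδ : 0 < Real.exp (-Λ) / 2 := by positivity
  obtain ⟨A, hA0, n1, hA⟩ := stepA h hκ _ hδ
  obtain ⟨ht1, ht2, ht3⟩ := th_bounds hκ
  refine ⟨Λ + A, by linarith, max 1 n1, fun N hN => ?_⟩
  have hN1 : 1 ≤ N := le_trans (le_max_left _ _) hN
  have hNn : n1 ≤ N + 1 := le_trans (le_trans (le_max_right _ _) hN) (Nat.le_succ _)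
  have hNpos : 0 < N := hN1
  have hNr : (1 : ℝ) ≤ N := by exact_mod_cast hN1
  have hN0 : (0 : ℝ) < N := by linarith
  set c : ℝ := 1 - th κ with hc
  have hc0 : 0 < c := by linarith
  have hc1 : c ≤ 1 := by linarith
  have hm := (h.Mx_spec N hNpos).1
  set m : ℕ := Mx p N with hmdef
  have hmΛ : (m : ℝ) ≤ Λ * N := hfb N m hNpos hm
  -- lower bound for `p (N+1) m`
  have hq : Real.exp (-(1 / (N : ℝ))) ≤ (N : ℝ) / (N + 1) := by
    have h1 : 1 + 1 / (N : ℝ) ≤ Real.exp (1 / (N : ℝ)) := by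
      have := Real.add_one_le_exp (1 / (N : ℝ)); linarith
    rw [Real.exp_neg, inv_eq_one_div]
    have h2 : (N : ℝ) / (N + 1) = 1 / (1 + 1 / (N : ℝ)) := by
      field_simp
    rw [h2]
    exact one_div_le_one_div_of_le (by positivity) h1
  have hpow : Real.exp (-Λ) ≤ ((N : ℝ) / (N + 1)) ^ m := by
    calc Real.exp (-Λ) ≤ Real.exp (m * -(1 / (N : ℝ))) := by
          apply Real.exp_le_exp.2
          have : (m : ℝ) * (1 / N) ≤ Λ := by
            rw [mul_one_div, div_le_iff₀ hN0]; exact hmΛ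
          linarith
      _ = Real.exp (-(1 / (N : ℝ))) ^ m := by rw [Real.exp_nat_mul]
      _ ≤ _ := pow_le_pow_left₀ (Real.exp_pos _).le hq m
  have hlow : Real.exp (-Λ) / 2 ≤ p (N + 1) m := by
    have h1 := h.hone N m hNpos
    have h2 : Real.exp (-Λ) * (1 / 2) ≤ ((N : ℝ) / (N + 1)) ^ m * p N m :=
      mul_le_mul hpow hm (by norm_num) (by positivity)
    linarith
  have hstep := hA (N + 1) m hNn hlow
  have hNs : (0 : ℝ) < ((N + 1 : ℕ) : ℝ) := by positivity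
  have hNs' : ((N + 1 : ℕ) : ℝ) = (N : ℝ) + 1 := by push_cast; ring
  -- divide
  have hdiv : (m : ℝ) / ((N + 1 : ℕ) : ℝ) ≤ (Mx p (N + 1) : ℝ) / ((N + 1 : ℕ) : ℝ) +
      A * ((N + 1 : ℕ) : ℝ) ^ (-c) := by
    have e : A * ((N + 1 : ℕ) : ℝ) ^ (-c) = A * ((N + 1 : ℕ) : ℝ) ^ th κ / ((N + 1 : ℕ) : ℝ) := by
      rw [show (-c : ℝ) = th κ - 1 by rw [hc]; ring, Real.rpow_sub_one hNs.ne', mul_div_assoc]
    rw [e, ← add_div]
    exact div_le_div_of_nonneg_right hstep hNs.le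
  have hle : ((N + 1 : ℕ) : ℝ) ^ (-c) ≤ (N : ℝ) ^ (-c) := by
    apply Real.rpow_le_rpow_of_nonpos hN0 (by rw [hNs']; linarith) (by linarith)
  have hle' : A * ((N + 1 : ℕ) : ℝ) ^ (-c) ≤ A * (N : ℝ) ^ (-c) :=
    mul_le_mul_of_nonneg_left hle hA0.le
  have hinv : 1 / (N : ℝ) ≤ (N : ℝ) ^ (-c) := by
    rw [one_div, ← Real.rpow_neg_one]
    exact Real.rpow_le_rpow_of_exponent_le hNr (by linarith)
  have hdiff : (m : ℝ) / N - (m : ℝ) / ((N + 1 : ℕ) : ℝ) ≤ Λ * (N : ℝ) ^ (-c) := by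
    have e : (m : ℝ) / N - (m : ℝ) / ((N + 1 : ℕ) : ℝ) = ((m : ℝ) / N) * (1 / ((N : ℝ) + 1)) := by
      rw [hNs']; field_simp; ring
    rw [e]
    have h1 : (m : ℝ) / N ≤ Λ := by rw [div_le_iff₀ hN0]; exact hmΛ
    have h2 : 1 / ((N : ℝ) + 1) ≤ (N : ℝ) ^ (-c) :=
      le_trans (one_div_le_one_div_of_le hN0 (by linarith)) hinv
    exact mul_le_mul h1 h2 (by positivity) hΛ.le
  have : (Λ + A) * (N : ℝ) ^ (-c) = Λ * (N : ℝ) ^ (-c) + A * (N : ℝ) ^ (-c) := by ring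
  linarith

/-- the limit of `Mx n / n` exists and is approached from above at speed `n ^ (θ - 1)` -/
theorem limit (h : Hyp κ p) (hκ : 2 ≤ κ) :
    ∃ L C : ℝ, 0 < C ∧ Tendsto (fun n : ℕ => (Mx p n : ℝ) / n) atTop (nhds L) ∧
      ∃ n0 : ℕ, ∀ n : ℕ, n0 ≤ n → (Mx p n : ℝ) ≤ L * n + C * (n : ℝ) ^ th κ := by
  obtain ⟨Λ, hΛ, hfb⟩ := h.first_bound (1 / 2) (by norm_num)
  obtain ⟨C1, hC1, n1, hB⟩ := stepB h hκ
  obtain ⟨C2, hC2, n2, hC⟩ := stepC h hκ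
  obtain ⟨ht1, ht2, ht3⟩ := th_bounds hκ
  set c : ℝ := 1 - th κ with hc
  have hc0 : 0 < c := by linarith
  have hr0 : ∀ n : ℕ, 0 ≤ (Mx p n : ℝ) / n := fun n => by positivity
  have hB' : ∀ N1 N2 : ℕ, max n1 n2 ≤ N1 → max n1 n2 ≤ N2 → N1 + N2 ≤ 4 * N1 →
      N1 + N2 ≤ 4 * N2 → min ((Mx p N1 : ℝ) / N1) ((Mx p N2 : ℝ) / N2) -
        (max C1 C2) * ((N1 + N2 : ℕ) : ℝ) ^ (-c) ≤
        (Mx p (N1 + N2) : ℝ) / ((N1 + N2 : ℕ) : ℝ) := fun N1 N2 h1 h2 h3 h4 => by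
      have h5 := hB N1 N2 (le_trans (le_max_left _ _) h1) (le_trans (le_max_left _ _) h2) h3 h4
      have h6 : (0 : ℝ) ≤ ((N1 + N2 : ℕ) : ℝ) ^ (-c) := by positivity
      have h7 : C1 * ((N1 + N2 : ℕ) : ℝ) ^ (-c) ≤ max C1 C2 * ((N1 + N2 : ℕ) : ℝ) ^ (-c) :=
        mul_le_mul_of_nonneg_right (le_max_left _ _) h6
      linarith
  obtain ⟨L, hL⟩ := seq_lemma (fun n => (Mx p n : ℝ) / n) c (max C1 C2) Λ (max n1 n2) hc0
    (lt_max_of_lt_left hC1) hr0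
    (fun n => by
      rcases Nat.eq_zero_or_pos n with rfl | hn
      · simp [hΛ.le]
      · have hn' : (0 : ℝ) < n := by exact_mod_cast hn
        show (Mx p n : ℝ) / n ≤ Λ
        rw [div_le_iff₀ hn']
        exact hfb n _ hn (h.Mx_spec n hn).1)
    hB'
    (fun N h1 => by
      have h5 := hC N (le_trans (le_max_right _ _) h1)
      have h6 : (0 : ℝ) ≤ (N : ℝ) ^ (-c) := by positivity
      have h7 : C2 * (N : ℝ) ^ (-c) ≤ max C1 C2 * (N : ℝ) ^ (-c) :=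
        mul_le_mul_of_nonneg_right (le_max_right _ _) h6
      show (Mx p N : ℝ) / N - _ ≤ _
      linarith)
  have h43 : 0 < (4 / 3 : ℝ) ^ c - 1 := by
    have := Real.one_lt_rpow (by norm_num : (1 : ℝ) < 4 / 3) hc0
    linarith
  have hmax : 0 < max C1 C2 := lt_max_of_lt_left hC1
  refine ⟨L, max C1 C2 / ((4 / 3 : ℝ) ^ c - 1), by positivity, hL, max (max n1 n2) 1,
    fun n hn => ?_⟩
  have hn1 : 1 ≤ n := (le_max_right _ _).trans hn
  have hn0 : (0 : ℝ) < n := by exact_mod_cast hn1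
  have hmul := sq_mult (fun n => (Mx p n : ℝ) / n) c (max C1 C2) (max n1 n2) hc0 hmax hB' n
    ((le_max_left _ _).trans hn) hn1
  set C3 : ℝ := max C1 C2 / ((4 / 3 : ℝ) ^ c - 1) with hC3
  have hC30 : 0 < C3 := by positivity
  have hle : ∀ a : ℕ, 1 ≤ a → (Mx p n : ℝ) / n - C3 * (n : ℝ) ^ (-c) ≤
      (Mx p (a * n) : ℝ) / ((a * n : ℕ) : ℝ) := by
    intro a ha
    refine le_trans ?_ (hmul a ha)
    have h1 : 0 ≤ C3 * (n : ℝ) ^ (-c) * (a : ℝ) ^ (-c) := by positivity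
    have : (Mx p n : ℝ) / n - C3 * (n : ℝ) ^ (-c) * (1 - (a : ℝ) ^ (-c)) =
      (Mx p n : ℝ) / n - C3 * (n : ℝ) ^ (-c) + C3 * (n : ℝ) ^ (-c) * (a : ℝ) ^ (-c) := by ring
    show (Mx p n : ℝ) / n - C3 * (n : ℝ) ^ (-c) ≤
      (Mx p n : ℝ) / n - C3 * (n : ℝ) ^ (-c) * (1 - (a : ℝ) ^ (-c))
    rw [this]
    linarith
  have hlim : Tendsto (fun a : ℕ => (Mx p (a * n) : ℝ) / ((a * n : ℕ) : ℝ)) atTop (nhds L) := by
    have h1 : Tendsto (fun a : ℕ => a * n) atTop atTop :=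
      tendsto_id.atTop_mul_const' hn1
    exact hL.comp h1
  have hfin : (Mx p n : ℝ) / n - C3 * (n : ℝ) ^ (-c) ≤ L :=
    ge_of_tendsto hlim ((eventually_ge_atTop 1).mono fun a ha => hle a ha)
  have e : (n : ℝ) ^ (-c) = (n : ℝ) ^ th κ / n := by
    rw [show (-c : ℝ) = th κ - 1 by rw [hc]; ring, Real.rpow_sub_one hn0.ne']
  rw [e] at hfin
  have h2 : (Mx p n : ℝ) / n ≤ L + C3 * ((n : ℝ) ^ th κ / n) := by linarith
  rw [div_le_iff₀ hn0] at h2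
  refine h2.trans (le_of_eq ?_)
  field_simp

end Pool.Agent.Y810.KS
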